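import Mathlib

set_option autoImplicit false

namespace Pool.Agent.Results.MP_5068ad_an.BidualNotOpen

open Metric Set Filter Topology


/-- If `t * s = 1` and `x` is close to `s`, then `t * x` is invertible. -/
theorem isUnit_mul_of_close {B : Type*} [NormedRing B] [CompleteSpace B] {s t x : B}
    (hts : t * s = 1) (ht : ‖t‖ ≤ 1) (hx : ‖x - s‖ < 1) : IsUnit (t * x) := by
  have h1 : ‖-(t * (x - s))‖ < 1 := by
    rw [norm_neg]
    calc ‖t * (x - s)‖ ≤ ‖t‖ * ‖x - s‖ := norm_mul_le _ _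
      _ ≤ 1 * ‖x - s‖ := by gcongr
      _ < 1 := by simpa using hx
  have h2 := isUnit_one_sub_of_norm_lt_one h1
  have h3 : (1 : B) - -(t * (x - s)) = t * x := by
    rw [mul_sub, hts]; abel
  rwa [h3] at h2

theorem isUnit_mul_of_close' {B : Type*} [NormedRing B] [CompleteSpace B] {s t y : B}
    (hts : t * s = 1) (hs : ‖s‖ ≤ 1) (hy : ‖y - t‖ < 1) : IsUnit (y * s) := by
  have h1 : ‖-((y - t) * s)‖ < 1 := by
    rw [norm_neg]
    calc ‖(y - t) * s‖ ≤ ‖y - t‖ * ‖s‖ := norm_mul_le _ _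
      _ ≤ ‖y - t‖ * 1 := by gcongr
      _ < 1 := by simpa using hy
  have h2 := isUnit_one_sub_of_norm_lt_one h1
  have h3 : (1 : B) - -((y - t) * s) = y * s := by
    rw [sub_mul, hts]; abel
  rwa [h3] at h2

/-- products of elements close to `s` and `t` are never right invertible when `s * t ≠ 1`. -/
theorem not_right_inv {B : Type*} [NormedRing B] [CompleteSpace B] {s t x y r : B}
    (hts : t * s = 1) (hst : s * t ≠ 1) (ht : ‖t‖ ≤ 1) (hx : ‖x - s‖ < 1)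
    (h : x * y * r = 1) : False := by
  obtain ⟨u, hu⟩ := isUnit_mul_of_close hts ht hx
  -- x is right invertible with right inverse y * r, left invertible
  have hleft : (↑u⁻¹ * t) * x = 1 := by
    rw [mul_assoc, ← hu]; simp
  have hright : x * (y * r) = 1 := by rw [← mul_assoc]; exact h
  have hxy : (↑u⁻¹ * t) = y * r := left_inv_eq_right_inv hleft hright
  have hxl : x * (↑u⁻¹ * t) = 1 := by rw [hxy]; exact hright
  -- t = (t x) (u⁻¹ t), hence t is left... t * p = 0 forces p = 0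
  have htp : t * (1 - s * t) = 0 := by
    rw [mul_sub, mul_one, ← mul_assoc, hts, one_mul, sub_self]
  have : (1 - s * t) = 0 := by
    calc (1 - s * t) = (x * (↑u⁻¹ * t)) * (1 - s * t) := by rw [hxl, one_mul]
      _ = x * ↑u⁻¹ * (t * (1 - s * t)) := by simp only [mul_assoc]
      _ = 0 := by rw [htp, mul_zero]
  exact hst (sub_eq_zero.mp this).symm

/-- `x * y + η (1 - s t)` is right invertible. -/
theorem right_inv {𝕜 B : Type*} [Field 𝕜] [NormedRing B] [Algebra 𝕜 B] [CompleteSpace B]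
    {s t x y : B} (hts : t * s = 1) (ht : ‖t‖ ≤ 1) (hs : ‖s‖ ≤ 1)
    (hx : ‖x - s‖ < 1) (hy : ‖y - t‖ < 1) {η : 𝕜} (hη : η ≠ 0) :
    ∃ r : B, (x * y + η • (1 - s * t)) * r = 1 := by
  obtain ⟨u, hu⟩ := isUnit_mul_of_close hts ht hx
  obtain ⟨v, hv⟩ := isUnit_mul_of_close' hts hs hy
  set p : B := 1 - s * t with hp
  have htp : t * p = 0 := by
    rw [hp, mul_sub, mul_one, ← mul_assoc, hts, one_mul, sub_self]
  have hps : p * s = 0 := by
    rw [hp, sub_mul, one_mul, mul_assoc, hts, mul_one, sub_self]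
  set q : B := 1 - x * ↑u⁻¹ * t with hq
  set w : B := 1 - s * ↑v⁻¹ * y with hw
  have htq : t * q = 0 := by
    have : t * q = t - (t * x) * ↑u⁻¹ * t := by rw [hq]; noncomm_ring
    rw [this, ← hu]; simp
  have hpq : p * q = q := by
    have : p * q = q - s * (t * q) := by rw [hp]; noncomm_ring
    rw [this, htq, mul_zero, sub_zero]
  have hyw : y * w = 0 := by
    have : y * w = y - (y * s) * ↑v⁻¹ * y := by rw [hw]; noncomm_ring
    rw [this, ← hv]; simp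
  have hpw : p * w = p := by
    have : p * w = p - (p * s) * ↑v⁻¹ * y := by rw [hw]; noncomm_ring
    rw [this, hps]; simp
  refine ⟨s * ↑v⁻¹ * ↑u⁻¹ * t + η⁻¹ • (w * q), ?_⟩
  have e1 : x * y * (s * ↑v⁻¹ * ↑u⁻¹ * t) = x * ↑u⁻¹ * t := by
    have : x * y * (s * ↑v⁻¹ * ↑u⁻¹ * t) = x * ((y * s) * ↑v⁻¹) * ↑u⁻¹ * t := by
      noncomm_ring
    rw [this, ← hv]; simp
  have e2 : x * y * (η⁻¹ • (w * q)) = 0 := by
    have : x * y * (η⁻¹ • (w * q)) = η⁻¹ • (x * (y * w) * q) := by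
      rw [mul_smul_comm]; congr 1; noncomm_ring
    rw [this, hyw]; simp
  have e3 : (η • p) * (s * ↑v⁻¹ * ↑u⁻¹ * t) = 0 := by
    have : (η • p) * (s * ↑v⁻¹ * ↑u⁻¹ * t) = η • ((p * s) * ↑v⁻¹ * ↑u⁻¹ * t) := by
      rw [smul_mul_assoc]; congr 1; noncomm_ring
    rw [this, hps]; simp
  have e4 : (η • p) * (η⁻¹ • (w * q)) = q := by
    rw [smul_mul_smul_comm, mul_inv_cancel₀ hη, one_smul, ← mul_assoc, hpw, hpq]
  rw [add_mul, mul_add, mul_add, e1, e2, e3, e4, hq]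
  abel


section A

variable {𝕜 B : Type*} [RCLike 𝕜] [NormedRing B] [NormedAlgebra 𝕜 B]

theorem pow_mul_pow_one {B : Type*} [Ring B] {S T : B} (hTS : T * S = 1) (n : ℕ) :
    T ^ n * S ^ n = 1 := by
  induction n with
  | zero => simp
  | succ n ih =>
    calc T ^ (n+1) * S ^ (n+1) = T ^ n * (T * S) * S ^ n := by
          rw [pow_succ, pow_succ']; simp only [mul_assoc]
      _ = 1 := by rw [hTS, mul_one, ih]

/-- elements supported in a finite corner -/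
def cornerAlg (𝕜 : Type*) {B : Type*} [RCLike 𝕜] [NormedRing B] [NormedAlgebra 𝕜 B] (S T : B) :
    NonUnitalSubalgebra 𝕜 B where
  carrier := {d | ∃ l : ℕ, d * S ^ l = 0 ∧ T ^ l * d = 0}
  add_mem' := by
    rintro a b ⟨l, hl1, hl2⟩ ⟨m, hm1, hm2⟩
    refine ⟨l + m, ?_, ?_⟩
    · rw [add_mul, pow_add, ← mul_assoc, hl1, zero_mul, zero_add, ← pow_add, add_comm, pow_add,
        ← mul_assoc, hm1, zero_mul]
    · rw [mul_add, add_comm l m, pow_add, mul_assoc, hl2, mul_zero, zero_add, ← pow_add,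
        add_comm, pow_add, mul_assoc, hm2, mul_zero]
  zero_mem' := ⟨0, by simp, by simp⟩
  mul_mem' := by
    rintro a b ⟨l, hl1, hl2⟩ ⟨m, hm1, hm2⟩
    refine ⟨l + m, ?_, ?_⟩
    · rw [mul_assoc, add_comm, pow_add, ← mul_assoc b, hm1, zero_mul, mul_zero]
    · rw [← mul_assoc, add_comm, pow_add, mul_assoc (T ^ m), hl2, mul_zero, zero_mul]
  smul_mem' := by
    rintro c a ⟨l, hl1, hl2⟩
    refine ⟨l, ?_, ?_⟩
    · rw [smul_mul_assoc, hl1, smul_zero]
    · rw [mul_smul_comm, hl2, smul_zero]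

theorem mem_cornerAlg {S T d : B} : d ∈ cornerAlg 𝕜 S T ↔ ∃ l : ℕ, d * S ^ l = 0 ∧ T ^ l * d = 0 :=
  Iff.rfl

/-- The key construction -/
theorem exists_factor [CompleteSpace B] {S T : B} (hTS : T * S = 1) (hS : ‖S‖ ≤ 1) (hT : ‖T‖ ≤ 1)
    (h1 : ‖(1 : B)‖ = 1)
    {x y z : B} (hx : x ∈ (cornerAlg 𝕜 S T).topologicalClosure)
    (hy : y ∈ (cornerAlg 𝕜 S T).topologicalClosure)
    (hz : z ∈ (cornerAlg 𝕜 S T).topologicalClosure) {ε : ℝ} (hε : 0 < ε)
    (h : ‖z - x * y‖ < ε ^ 2 / 256) :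
    ∃ x' ∈ (cornerAlg 𝕜 S T).topologicalClosure, ∃ y' ∈ (cornerAlg 𝕜 S T).topologicalClosure,
      ‖x' - x‖ < ε ∧ ‖y' - y‖ < ε ∧ x' * y' = z := by
  -- choose x0, y0
  have hpowS : ∀ n : ℕ, ‖S ^ n‖ ≤ 1 := fun n => by
    induction n with
    | zero => simp [h1]
    | succ n ih =>
      rw [pow_succ]
      calc ‖S ^ n * S‖ ≤ ‖S ^ n‖ * ‖S‖ := norm_mul_le _ _
        _ ≤ 1 * 1 := by gcongr
        _ = 1 := one_mul 1
  have hpowT : ∀ n : ℕ, ‖T ^ n‖ ≤ 1 := fun n => by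
    induction n with
    | zero => simp [h1]
    | succ n ih =>
      rw [pow_succ]
      calc ‖T ^ n * T‖ ≤ ‖T ^ n‖ * ‖T‖ := norm_mul_le _ _
        _ ≤ 1 * 1 := by gcongr
        _ = 1 := one_mul 1
  have hx' : x ∈ closure ((cornerAlg 𝕜 S T : NonUnitalSubalgebra 𝕜 B) : Set B) := hx
  have hy' : y ∈ closure ((cornerAlg 𝕜 S T : NonUnitalSubalgebra 𝕜 B) : Set B) := hy
  have hz' : z ∈ closure ((cornerAlg 𝕜 S T : NonUnitalSubalgebra 𝕜 B) : Set B) := hz
  obtain ⟨⟨x0, y0⟩, hxy0, hnear⟩ :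
      ∃ p : B × B, (‖p.1 - x‖ < ε / 2 ∧ ‖p.2 - y‖ < ε / 2 ∧ ‖z - p.1 * p.2‖ < ε ^ 2 / 256) ∧
        p ∈ (((cornerAlg 𝕜 S T : NonUnitalSubalgebra 𝕜 B) : Set B) ×ˢ
          ((cornerAlg 𝕜 S T : NonUnitalSubalgebra 𝕜 B) : Set B)) := by
    have hcl : ((x, y) : B × B) ∈ closure (((cornerAlg 𝕜 S T : NonUnitalSubalgebra 𝕜 B) : Set B) ×ˢ
          ((cornerAlg 𝕜 S T : NonUnitalSubalgebra 𝕜 B) : Set B)) := by
      rw [closure_prod_eq]; exact ⟨hx', hy'⟩
    have hopen : IsOpen {p : B × B | ‖p.1 - x‖ < ε / 2 ∧ ‖p.2 - y‖ < ε / 2 ∧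
        ‖z - p.1 * p.2‖ < ε ^ 2 / 256} := by
      have o1 : IsOpen {p : B × B | ‖p.1 - x‖ < ε / 2} :=
        isOpen_lt (by fun_prop) continuous_const
      have o2 : IsOpen {p : B × B | ‖p.2 - y‖ < ε / 2} :=
        isOpen_lt (by fun_prop) continuous_const
      have o3 : IsOpen {p : B × B | ‖z - p.1 * p.2‖ < ε ^ 2 / 256} :=
        isOpen_lt (by fun_prop) continuous_const
      exact o1.inter (o2.inter o3)
    have hmem : ((x, y) : B × B) ∈ {p : B × B | ‖p.1 - x‖ < ε / 2 ∧ ‖p.2 - y‖ < ε / 2 ∧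
        ‖z - p.1 * p.2‖ < ε ^ 2 / 256} := by
      refine ⟨?_, ?_, h⟩ <;> simp [hε]
    obtain ⟨p, hp1, hp2⟩ := mem_closure_iff.mp hcl _ hopen hmem
    exact ⟨p, hp1, hp2⟩
  obtain ⟨hx0, hy0, hz0⟩ := hxy0
  obtain ⟨hx0m, hy0m⟩ := hnear
  simp only at hx0 hy0 hz0 hx0m hy0m
  obtain ⟨lx, hlx1, hlx2⟩ := hx0m
  obtain ⟨ly, hly1, hly2⟩ := hy0m
  have hx0m : x0 ∈ cornerAlg 𝕜 S T := ⟨lx, hlx1, hlx2⟩
  have hy0m : y0 ∈ cornerAlg 𝕜 S T := ⟨ly, hly1, hly2⟩
  -- the remainder c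
  have hc : z - x0 * y0 ∈ closure ((cornerAlg 𝕜 S T).toNonUnitalSubring.toAddSubgroup : Set B) := by
    have h2 : x0 * y0 ∈ (cornerAlg 𝕜 S T).topologicalClosure :=
      (cornerAlg 𝕜 S T).le_topologicalClosure (mul_mem hx0m hy0m)
    exact sub_mem hz h2
  obtain ⟨v, hv1, hv2, hv3, hv4⟩ := controlled_sum_of_mem_closure hc
    (b := fun n => ε ^ 2 / 256 * (1/4) ^ n) (fun n => by positivity)
  have hvn : ∀ n, ‖v n‖ ≤ ε ^ 2 / 128 * (1/4) ^ n := by
    intro n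
    rcases Nat.eq_zero_or_pos n with rfl | hn
    · have : ‖v 0‖ ≤ ‖v 0 - (z - x0 * y0)‖ + ‖z - x0 * y0‖ := by
        have := norm_add_le (v 0 - (z - x0 * y0)) (z - x0 * y0)
        simpa using this
      have h5 : ‖v 0 - (z - x0 * y0)‖ < ε ^ 2 / 256 := by
        rw [norm_sub_rev, sub_eq_neg_add]
        simpa using hv3
      simp only [pow_zero, mul_one]
      linarith
    · have := hv4 n hn
      have h3 : ε ^ 2 / 256 * (1/4 : ℝ) ^ n ≤ ε ^ 2 / 128 * (1/4) ^ n := by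
        gcongr; norm_num
      linarith
  choose l hl1 hl2 using (fun n => (mem_cornerAlg (𝕜 := 𝕜)).mp (hv2 n))
  -- exponents
  obtain ⟨m, hm0, hmsucc⟩ : ∃ m : ℕ → ℕ, m 0 = lx + ly ∧ ∀ n, m (n+1) = m n + l n :=
    ⟨fun n => (lx + ly) + ∑ i ∈ Finset.range n, l i, by simp, fun n => by
      simp only [Finset.sum_range_succ]; ring⟩
  obtain ⟨lam, hlamdef⟩ : ∃ lam : ℕ → ℝ, ∀ n, lam n = 16 / ε * 2 ^ n := ⟨_, fun n => rfl⟩
  have hlam : ∀ n, 0 < lam n := fun n => by rw [hlamdef]; positivity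
  obtain ⟨α, hαdef⟩ : ∃ α : ℕ → B, ∀ n, α n = (lam n : 𝕜) • (v n * T ^ m n) := ⟨_, fun n => rfl⟩
  obtain ⟨β, hβdef⟩ : ∃ β : ℕ → B, ∀ n, β n =
    (lam n : 𝕜)⁻¹ • (S ^ m n * (1 - S ^ l n * T ^ l n)) := ⟨_, fun n => rfl⟩
  obtain ⟨X, hXdef⟩ : ∃ X : ℕ → B, ∀ n, X n = x0 + ∑ i ∈ Finset.range n, α i := ⟨_, fun n => rfl⟩
  obtain ⟨Y, hYdef⟩ : ∃ Y : ℕ → B, ∀ n, Y n = y0 + ∑ i ∈ Finset.range n, β i := ⟨_, fun n => rfl⟩
  have hXs : ∀ n, X (n+1) = X n + α n := fun n => by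
    simp only [hXdef, Finset.sum_range_succ]; abel
  have hYs : ∀ n, Y (n+1) = Y n + β n := fun n => by
    simp only [hYdef, Finset.sum_range_succ]; abel
  have hP0 : ∀ k : ℕ, T ^ k * (1 - S ^ k * T ^ k) = 0 := fun k => by
    rw [mul_sub, mul_one, ← mul_assoc, pow_mul_pow_one hTS, one_mul, sub_self]
  have hP1 : ∀ k : ℕ, (1 - S ^ k * T ^ k) * S ^ k = 0 := fun k => by
    rw [sub_mul, one_mul, mul_assoc, pow_mul_pow_one hTS, mul_one, sub_self]
  have hX0 : ∀ n, X n * S ^ m n = 0 := by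
    intro n
    induction n with
    | zero =>
      simp only [hXdef, Finset.range_zero, Finset.sum_empty, add_zero, hm0]
      rw [pow_add, ← mul_assoc, hlx1, zero_mul]
    | succ n ih =>
      rw [hXs, hmsucc, add_mul, pow_add, ← mul_assoc, ih, zero_mul, zero_add]
      rw [hαdef, smul_mul_assoc]
      have : v n * T ^ m n * (S ^ m n * S ^ l n) = v n * (T ^ m n * S ^ m n) * S ^ l n := by
        simp only [mul_assoc]
      rw [this, pow_mul_pow_one hTS, mul_one, hl1, smul_zero]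
  have hY0 : ∀ n, T ^ m n * Y n = 0 := by
    intro n
    induction n with
    | zero =>
      simp only [hYdef, Finset.range_zero, Finset.sum_empty, add_zero, hm0]
      rw [pow_add, mul_assoc, hly2, mul_zero]
    | succ n ih =>
      rw [hYs, hmsucc, mul_add, add_comm (m n), pow_add, mul_assoc, ih, mul_zero, zero_add]
      rw [hβdef, mul_smul_comm]
      have : T ^ l n * T ^ m n * (S ^ m n * (1 - S ^ l n * T ^ l n)) =
          T ^ l n * (T ^ m n * S ^ m n) * (1 - S ^ l n * T ^ l n) := by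
        simp only [mul_assoc]
      rw [this, pow_mul_pow_one hTS, mul_one, hP0, smul_zero]
  have hXY : ∀ n, X n * Y n = x0 * y0 + ∑ i ∈ Finset.range n, v i := by
    intro n
    induction n with
    | zero => simp [hXdef, hYdef]
    | succ n ih =>
      rw [hXs, hYs, add_mul, mul_add, mul_add, ih, Finset.sum_range_succ]
      have e1 : X n * β n = 0 := by
        rw [hβdef, mul_smul_comm, ← mul_assoc, hX0, zero_mul, smul_zero]
      have e2 : α n * Y n = 0 := by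
        rw [hαdef, smul_mul_assoc, mul_assoc, hY0, mul_zero, smul_zero]
      have e3 : α n * β n = v n := by
        rw [hαdef, hβdef, smul_mul_smul_comm, mul_inv_cancel₀ (by exact_mod_cast (hlam n).ne'), one_smul]
        have : v n * T ^ m n * (S ^ m n * (1 - S ^ l n * T ^ l n)) =
          v n * (T ^ m n * S ^ m n) * (1 - S ^ l n * T ^ l n) := by
          simp only [mul_assoc]
        rw [this, pow_mul_pow_one hTS, mul_one, mul_sub, mul_one, ← mul_assoc, hl1, zero_mul,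
          sub_zero]
      rw [e1, e2, e3]; abel
  have hαm : ∀ n, α n ∈ cornerAlg 𝕜 S T := by
    intro n
    rw [hαdef]
    apply SMulMemClass.smul_mem
    refine ⟨m n + l n, ?_, ?_⟩
    · have : v n * T ^ m n * (S ^ (m n + l n)) = v n * (T ^ m n * S ^ m n) * S ^ l n := by
        rw [pow_add]; simp only [mul_assoc]
      rw [this, pow_mul_pow_one hTS, mul_one, hl1]
    · rw [pow_add, ← mul_assoc, mul_assoc (T ^ m n), hl2, mul_zero, zero_mul]
  have hβm : ∀ n, β n ∈ cornerAlg 𝕜 S T := by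
    intro n
    rw [hβdef]
    apply SMulMemClass.smul_mem
    refine ⟨m n + l n, ?_, ?_⟩
    · rw [add_comm, pow_add, ← mul_assoc, mul_assoc (S ^ m n), hP1, mul_zero, zero_mul]
    · have : T ^ (m n + l n) * (S ^ m n * (1 - S ^ l n * T ^ l n)) =
        T ^ l n * (T ^ m n * S ^ m n) * (1 - S ^ l n * T ^ l n) := by
        rw [add_comm (m n), pow_add]; simp only [mul_assoc]
      rw [this, pow_mul_pow_one hTS, mul_one, hP0]
  have hαn : ∀ n, ‖α n‖ ≤ ε / 8 * (1/2) ^ n := by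
    intro n
    rw [hαdef, norm_smul]
    calc ‖(lam n : 𝕜)‖ * ‖v n * T ^ m n‖ ≤ lam n * (‖v n‖ * ‖T ^ m n‖) := by
          rw [RCLike.norm_ofReal, abs_of_pos (hlam n)]
          exact mul_le_mul_of_nonneg_left (norm_mul_le _ _) (hlam n).le
      _ ≤ lam n * ((ε ^ 2 / 128 * (1/4) ^ n) * 1) := by
          have := (hlam n).le
          gcongr
          · exact hvn n
          · exact hpowT _
      _ = ε / 8 * (1/2) ^ n := by
          rw [hlamdef]
          have h4 : (2 : ℝ) ^ n * (1/4) ^ n = (1/2) ^ n := by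
            rw [← mul_pow]; norm_num
          field_simp
          rw [← h4]
          ring
  have hβn : ∀ n, ‖β n‖ ≤ ε / 8 * (1/2) ^ n := by
    intro n
    rw [hβdef, norm_smul]
    have hP : ‖(1 - S ^ l n * T ^ l n : B)‖ ≤ 2 := by
      calc ‖(1 - S ^ l n * T ^ l n : B)‖ ≤ ‖(1:B)‖ + ‖S ^ l n * T ^ l n‖ := norm_sub_le _ _
        _ ≤ 1 + ‖S ^ l n‖ * ‖T ^ l n‖ := by rw [h1]; gcongr; exact norm_mul_le _ _
        _ ≤ 1 + 1 * 1 := by gcongr <;> first | exact hpowS _ | exact hpowT _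
        _ = 2 := by norm_num
    calc ‖(lam n : 𝕜)⁻¹‖ * ‖S ^ m n * (1 - S ^ l n * T ^ l n)‖
        ≤ (lam n)⁻¹ * (‖S ^ m n‖ * ‖(1 - S ^ l n * T ^ l n : B)‖) := by
          rw [norm_inv, RCLike.norm_ofReal, abs_of_pos (hlam n)]
          exact mul_le_mul_of_nonneg_left (norm_mul_le _ _) (inv_pos.mpr (hlam n)).le
      _ ≤ (lam n)⁻¹ * (1 * 2) := by
          have := (inv_pos.mpr (hlam n)).le
          gcongr
          exact hpowS _
      _ = ε / 8 * (1/2) ^ n := by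
          rw [hlamdef, one_div, inv_pow]
          field_simp
          norm_num
  have hgeo : HasSum (fun n : ℕ => ε / 8 * (1/2 : ℝ) ^ n) (ε / 4) := by
    have h6 := (hasSum_geometric_two).mul_left (ε / 8)
    have h7 : ε / 8 * 2 = ε / 4 := by ring
    rwa [h7] at h6
  have hαs : Summable α := Summable.of_norm_bounded hgeo.summable hαn
  have hβs : Summable β := Summable.of_norm_bounded hgeo.summable hβn
  have hαt : ‖∑' n, α n‖ ≤ ε / 4 := tsum_of_norm_bounded hgeo hαn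
  have hβt : ‖∑' n, β n‖ ≤ ε / 4 := tsum_of_norm_bounded hgeo hβn
  have hXlim : Tendsto X atTop (𝓝 (x0 + ∑' n, α n)) := by
    have := (hαs.hasSum.tendsto_sum_nat).const_add x0
    exact this.congr fun n => (hXdef n).symm
  have hYlim : Tendsto Y atTop (𝓝 (y0 + ∑' n, β n)) := by
    have := (hβs.hasSum.tendsto_sum_nat).const_add y0
    exact this.congr fun n => (hYdef n).symm
  have hXmem : ∀ n, X n ∈ cornerAlg 𝕜 S T := fun n => by
    rw [hXdef]; exact add_mem hx0m (sum_mem fun i _ => hαm i)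
  have hYmem : ∀ n, Y n ∈ cornerAlg 𝕜 S T := fun n => by
    rw [hYdef]; exact add_mem hy0m (sum_mem fun i _ => hβm i)
  refine ⟨x0 + ∑' n, α n, mem_closure_of_tendsto hXlim (Eventually.of_forall hXmem),
    y0 + ∑' n, β n, mem_closure_of_tendsto hYlim (Eventually.of_forall hYmem), ?_, ?_, ?_⟩
  · calc ‖x0 + ∑' n, α n - x‖ = ‖(x0 - x) + ∑' n, α n‖ := by congr 1; abel
      _ ≤ ‖x0 - x‖ + ‖∑' n, α n‖ := norm_add_le _ _
      _ < ε / 2 + ε / 2 := by linarith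
      _ = ε := by ring
  · calc ‖y0 + ∑' n, β n - y‖ = ‖(y0 - y) + ∑' n, β n‖ := by congr 1; abel
      _ ≤ ‖y0 - y‖ + ‖∑' n, β n‖ := norm_add_le _ _
      _ < ε / 2 + ε / 2 := by linarith
      _ = ε := by ring
  · have hlim1 : Tendsto (fun n => X (n+1) * Y (n+1)) atTop
        (𝓝 ((x0 + ∑' n, α n) * (y0 + ∑' n, β n))) :=
      ((hXlim.mul hYlim).comp (tendsto_add_atTop_nat 1))
    have hlim2 : Tendsto (fun n => X (n+1) * Y (n+1)) atTop (𝓝 z) := by
      have : Tendsto (fun n => x0 * y0 + ∑ i ∈ Finset.range (n+1), v i) atTop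
          (𝓝 (x0 * y0 + (z - x0 * y0))) := hv1.const_add _
      simp only [hXY]
      convert this using 2
      abel
    exact tendsto_nhds_unique hlim1 hlim2

end A

section Arens

variable (𝕜 : Type*) (A : Type*) [RCLike 𝕜] [NonUnitalNormedRing A] [NormedSpace 𝕜 A]
  [IsScalarTower 𝕜 A A] [SMulCommClass 𝕜 A A]

/-- The functional `f · a`, i.e. `b ↦ f (a b)`. -/
noncomputable def funDotElt (f : StrongDual 𝕜 A) (a : A) : StrongDual 𝕜 A :=
  f.comp (ContinuousLinearMap.mul 𝕜 A a)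

/-- The functional `a · f`, i.e. `b ↦ f (b a)`. -/
noncomputable def eltDotFun (a : A) (f : StrongDual 𝕜 A) : StrongDual 𝕜 A :=
  f.comp ((ContinuousLinearMap.mul 𝕜 A).flip a)

theorem norm_funDotElt_le (f : StrongDual 𝕜 A) (a : A) : ‖funDotElt 𝕜 A f a‖ ≤ ‖f‖ * ‖a‖ := by
  refine ContinuousLinearMap.opNorm_le_bound _ (by positivity) fun b => ?_
  calc ‖f (a * b)‖ ≤ ‖f‖ * ‖a * b‖ := f.le_opNorm _
    _ ≤ ‖f‖ * (‖a‖ * ‖b‖) := by gcongr; exact norm_mul_le _ _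
    _ = ‖f‖ * ‖a‖ * ‖b‖ := by ring

theorem norm_eltDotFun_le (a : A) (f : StrongDual 𝕜 A) : ‖eltDotFun 𝕜 A a f‖ ≤ ‖f‖ * ‖a‖ := by
  refine ContinuousLinearMap.opNorm_le_bound _ (by positivity) fun b => ?_
  calc ‖f (b * a)‖ ≤ ‖f‖ * ‖b * a‖ := f.le_opNorm _
    _ ≤ ‖f‖ * (‖b‖ * ‖a‖) := by gcongr; exact norm_mul_le _ _
    _ = ‖f‖ * ‖a‖ * ‖b‖ := by ring

/-- The functional `G · f`, i.e. `a ↦ G (f · a)`, for `G` in the bidual. -/
noncomputable def bidualDotFun (G : StrongDual 𝕜 (StrongDual 𝕜 A)) (f : StrongDual 𝕜 A) :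
    StrongDual 𝕜 A :=
  LinearMap.mkContinuous
    { toFun := fun a => G (funDotElt 𝕜 A f a)
      map_add' := fun a b => by
        have : funDotElt 𝕜 A f (a + b) = funDotElt 𝕜 A f a + funDotElt 𝕜 A f b := by
          ext c; simp [funDotElt]
        rw [this, map_add]
      map_smul' := fun r a => by
        have : funDotElt 𝕜 A f (r • a) = r • funDotElt 𝕜 A f a := by
          ext c; simp [funDotElt]
        rw [this, map_smul]; rfl } (‖G‖ * ‖f‖) fun a => by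
      calc ‖G (funDotElt 𝕜 A f a)‖ ≤ ‖G‖ * ‖funDotElt 𝕜 A f a‖ := G.le_opNorm _
        _ ≤ ‖G‖ * (‖f‖ * ‖a‖) := by gcongr; exact norm_funDotElt_le 𝕜 A f a
        _ = ‖G‖ * ‖f‖ * ‖a‖ := by ring

/-- The functional `f · F`, i.e. `a ↦ F (a · f)`, for `F` in the bidual. -/
noncomputable def funDotBidual (f : StrongDual 𝕜 A) (F : StrongDual 𝕜 (StrongDual 𝕜 A)) :
    StrongDual 𝕜 A :=
  LinearMap.mkContinuous
    { toFun := fun a => F (eltDotFun 𝕜 A a f)
      map_add' := fun a b => by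
        have : eltDotFun 𝕜 A (a + b) f = eltDotFun 𝕜 A a f + eltDotFun 𝕜 A b f := by
          ext c; simp [eltDotFun]
        rw [this, map_add]
      map_smul' := fun r a => by
        have : eltDotFun 𝕜 A (r • a) f = r • eltDotFun 𝕜 A a f := by
          ext c; simp [eltDotFun]
        rw [this, map_smul]; rfl } (‖F‖ * ‖f‖) fun a => by
      calc ‖F (eltDotFun 𝕜 A a f)‖ ≤ ‖F‖ * ‖eltDotFun 𝕜 A a f‖ := F.le_opNorm _
        _ ≤ ‖F‖ * (‖f‖ * ‖a‖) := by gcongr; exact norm_eltDotFun_le 𝕜 A a f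
        _ = ‖F‖ * ‖f‖ * ‖a‖ := by ring

variable {𝕜 A} in
theorem bidualDotFun_apply (G : StrongDual 𝕜 (StrongDual 𝕜 A)) (f : StrongDual 𝕜 A) (a : A) :
    bidualDotFun 𝕜 A G f a = G (funDotElt 𝕜 A f a) := rfl

variable {𝕜 A} in
theorem funDotBidual_apply (F : StrongDual 𝕜 (StrongDual 𝕜 A)) (f : StrongDual 𝕜 A) (a : A) :
    funDotBidual 𝕜 A f F a = F (eltDotFun 𝕜 A a f) := rfl

theorem norm_bidualDotFun_le (G : StrongDual 𝕜 (StrongDual 𝕜 A)) (f : StrongDual 𝕜 A) :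
    ‖bidualDotFun 𝕜 A G f‖ ≤ ‖G‖ * ‖f‖ :=
  LinearMap.mkContinuous_norm_le _ (by positivity) _

theorem norm_funDotBidual_le (F : StrongDual 𝕜 (StrongDual 𝕜 A)) (f : StrongDual 𝕜 A) :
    ‖funDotBidual 𝕜 A f F‖ ≤ ‖F‖ * ‖f‖ :=
  LinearMap.mkContinuous_norm_le _ (by positivity) _

/-- The first Arens product `F □ G`, i.e. `f ↦ F (G · f)`. -/
noncomputable def arensFirst (F G : StrongDual 𝕜 (StrongDual 𝕜 A)) :
    StrongDual 𝕜 (StrongDual 𝕜 A) :=
  LinearMap.mkContinuous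
    { toFun := fun f => F (bidualDotFun 𝕜 A G f)
      map_add' := fun f g => by
        have : bidualDotFun 𝕜 A G (f + g) = bidualDotFun 𝕜 A G f + bidualDotFun 𝕜 A G g := by
          ext a
          have h : funDotElt 𝕜 A (f + g) a = funDotElt 𝕜 A f a + funDotElt 𝕜 A g a := by
            ext c; simp [funDotElt]
          simp [bidualDotFun_apply, h]
        rw [this, map_add]
      map_smul' := fun r f => by
        have : bidualDotFun 𝕜 A G (r • f) = r • bidualDotFun 𝕜 A G f := by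
          ext a
          have h : funDotElt 𝕜 A (r • f) a = r • funDotElt 𝕜 A f a := by
            ext c; simp [funDotElt]
          simp [bidualDotFun_apply, h]
        rw [this, map_smul]; rfl } (‖F‖ * ‖G‖) fun f => by
      calc ‖F (bidualDotFun 𝕜 A G f)‖ ≤ ‖F‖ * ‖bidualDotFun 𝕜 A G f‖ := F.le_opNorm _
        _ ≤ ‖F‖ * (‖G‖ * ‖f‖) := by gcongr; exact norm_bidualDotFun_le 𝕜 A G f
        _ = ‖F‖ * ‖G‖ * ‖f‖ := by ring

/-- The second Arens product `F ◇ G`, i.e. `f ↦ G (f · F)`. -/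
noncomputable def arensSecond (F G : StrongDual 𝕜 (StrongDual 𝕜 A)) :
    StrongDual 𝕜 (StrongDual 𝕜 A) :=
  LinearMap.mkContinuous
    { toFun := fun f => G (funDotBidual 𝕜 A f F)
      map_add' := fun f g => by
        have : funDotBidual 𝕜 A (f + g) F = funDotBidual 𝕜 A f F + funDotBidual 𝕜 A g F := by
          ext a
          have h : eltDotFun 𝕜 A a (f + g) = eltDotFun 𝕜 A a f + eltDotFun 𝕜 A a g := by
            ext c; simp [eltDotFun]
          simp [funDotBidual_apply, h]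
        rw [this, map_add]
      map_smul' := fun r f => by
        have : funDotBidual 𝕜 A (r • f) F = r • funDotBidual 𝕜 A f F := by
          ext a
          have h : eltDotFun 𝕜 A a (r • f) = r • eltDotFun 𝕜 A a f := by
            ext c; simp [eltDotFun]
          simp [funDotBidual_apply, h]
        rw [this, map_smul]; rfl } (‖F‖ * ‖G‖) fun f => by
      calc ‖G (funDotBidual 𝕜 A f F)‖ ≤ ‖G‖ * ‖funDotBidual 𝕜 A f F‖ := G.le_opNorm _
        _ ≤ ‖G‖ * (‖F‖ * ‖f‖) := by gcongr; exact norm_funDotBidual_le 𝕜 A F f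
        _ = ‖F‖ * ‖G‖ * ‖f‖ := by ring

variable {𝕜 A} in
theorem arensFirst_apply (F G : StrongDual 𝕜 (StrongDual 𝕜 A)) (f : StrongDual 𝕜 A) :
    arensFirst 𝕜 A F G f = F (bidualDotFun 𝕜 A G f) := rfl

variable {𝕜 A} in
theorem arensSecond_apply (F G : StrongDual 𝕜 (StrongDual 𝕜 A)) (f : StrongDual 𝕜 A) :
    arensSecond 𝕜 A F G f = G (funDotBidual 𝕜 A f F) := rfl

end Arens

section Rep

variable {𝕜 H : Type*} [RCLike 𝕜] [NormedAddCommGroup H] [InnerProductSpace 𝕜 H]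

variable {A : Type*} [NonUnitalNormedRing A] [NormedSpace 𝕜 A]
  [IsScalarTower 𝕜 A A] [SMulCommClass 𝕜 A A]

/-- coefficient functional `a ↦ ⟪η, j a ξ⟫` -/
noncomputable def coeffFun (j : A →L[𝕜] H →L[𝕜] H) (η ξ : H) : StrongDual 𝕜 A :=
  (innerSL 𝕜 η).comp ((ContinuousLinearMap.apply 𝕜 H ξ).comp j)

omit [IsScalarTower 𝕜 A A] [SMulCommClass 𝕜 A A] in
theorem coeffFun_apply (j : A →L[𝕜] H →L[𝕜] H) (η ξ : H) (a : A) :
    coeffFun j η ξ a = inner 𝕜 η (j a ξ) := rfl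

omit [IsScalarTower 𝕜 A A] [SMulCommClass 𝕜 A A] in
theorem norm_coeffFun_le {j : A →L[𝕜] H →L[𝕜] H} (hj : ∀ a, ‖j a‖ ≤ ‖a‖) (η ξ : H) :
    ‖coeffFun j η ξ‖ ≤ ‖η‖ * ‖ξ‖ := by
  refine ContinuousLinearMap.opNorm_le_bound _ (by positivity) fun a => ?_
  rw [coeffFun_apply]
  calc ‖inner 𝕜 η (j a ξ)‖ ≤ ‖η‖ * ‖j a ξ‖ := norm_inner_le_norm _ _
    _ ≤ ‖η‖ * (‖j a‖ * ‖ξ‖) := by gcongr; exact ContinuousLinearMap.le_opNorm _ _
    _ ≤ ‖η‖ * (‖a‖ * ‖ξ‖) := by gcongr; exact hj a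
    _ = ‖η‖ * ‖ξ‖ * ‖a‖ := by ring

/-- The sesquilinear form attached to an element of the bidual. -/
noncomputable def coeffForm {j : A →L[𝕜] H →L[𝕜] H} (hj : ∀ a, ‖j a‖ ≤ ‖a‖)
    (F : StrongDual 𝕜 (StrongDual 𝕜 A)) : H →L⋆[𝕜] H →L[𝕜] 𝕜 :=
  LinearMap.mkContinuous₂
    (LinearMap.mk₂'ₛₗ (starRingEnd 𝕜) (RingHom.id 𝕜) (fun η ξ => F (coeffFun j η ξ))
      (fun η η' ξ => by
        have : coeffFun j (η + η') ξ = coeffFun j η ξ + coeffFun j η' ξ := by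
          ext a; simp [coeffFun_apply, inner_add_left]
        rw [this, map_add])
      (fun c η ξ => by
        have : coeffFun j (c • η) ξ = (starRingEnd 𝕜) c • coeffFun j η ξ := by
          ext a; simp [coeffFun_apply, inner_smul_left]
        rw [this, map_smul])
      (fun η ξ ξ' => by
        have : coeffFun j η (ξ + ξ') = coeffFun j η ξ + coeffFun j η ξ' := by
          ext a; simp [coeffFun_apply, inner_add_right]
        rw [this, map_add])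
      (fun c η ξ => by
        have : coeffFun j η (c • ξ) = c • coeffFun j η ξ := by
          ext a; simp [coeffFun_apply, inner_smul_right]
        rw [this, map_smul]; rfl)) ‖F‖ (fun η ξ => by
      calc ‖F (coeffFun j η ξ)‖ ≤ ‖F‖ * ‖coeffFun j η ξ‖ := F.le_opNorm _
        _ ≤ ‖F‖ * (‖η‖ * ‖ξ‖) := by gcongr; exact norm_coeffFun_le hj η ξ
        _ = ‖F‖ * ‖η‖ * ‖ξ‖ := by ring)

theorem coeffForm_apply {j : A →L[𝕜] H →L[𝕜] H} (hj : ∀ a, ‖j a‖ ≤ ‖a‖)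
    (F : StrongDual 𝕜 (StrongDual 𝕜 A)) (η ξ : H) :
    coeffForm hj F η ξ = F (coeffFun j η ξ) := rfl

variable [CompleteSpace H]

/-- The operator attached to an element of the bidual. -/
noncomputable def bidualOp {j : A →L[𝕜] H →L[𝕜] H} (hj : ∀ a, ‖j a‖ ≤ ‖a‖)
    (F : StrongDual 𝕜 (StrongDual 𝕜 A)) : H →L[𝕜] H :=
  ContinuousLinearMap.adjoint (InnerProductSpace.continuousLinearMapOfBilin (coeffForm hj F))

variable {j : A →L[𝕜] H →L[𝕜] H} (hj : ∀ a, ‖j a‖ ≤ ‖a‖)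

include hj

theorem inner_bidualOp (F : StrongDual 𝕜 (StrongDual 𝕜 A)) (η ξ : H) :
    inner 𝕜 η (bidualOp hj F ξ) = F (coeffFun j η ξ) := by
  rw [bidualOp, ContinuousLinearMap.adjoint_inner_right,
    InnerProductSpace.continuousLinearMapOfBilin_apply, coeffForm_apply]

theorem bidualOp_eq {F : StrongDual 𝕜 (StrongDual 𝕜 A)} {X : H →L[𝕜] H}
    (h : ∀ η ξ : H, F (coeffFun j η ξ) = inner 𝕜 η (X ξ)) : bidualOp hj F = X := by
  ext ξ
  refine ext_inner_left 𝕜 fun η => ?_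
  rw [inner_bidualOp, h]

theorem bidualOp_sub (F G : StrongDual 𝕜 (StrongDual 𝕜 A)) :
    bidualOp hj (F - G) = bidualOp hj F - bidualOp hj G :=
  bidualOp_eq hj fun η ξ => by simp [inner_sub_right, inner_bidualOp]

theorem bidualOp_add_smul (F G : StrongDual 𝕜 (StrongDual 𝕜 A)) (c : 𝕜) :
    bidualOp hj (F + c • G) = bidualOp hj F + c • bidualOp hj G :=
  bidualOp_eq hj fun η ξ => by simp [inner_add_right, inner_smul_right, inner_bidualOp]

theorem norm_bidualOp_le (F : StrongDual 𝕜 (StrongDual 𝕜 A)) : ‖bidualOp hj F‖ ≤ ‖F‖ := by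
  refine ContinuousLinearMap.opNorm_le_bound _ (norm_nonneg F) fun ξ => ?_
  by_cases h0 : bidualOp hj F ξ = 0
  · rw [h0, norm_zero]; positivity
  have hpos : 0 < ‖bidualOp hj F ξ‖ := norm_pos_iff.mpr h0
  have h1 : ‖bidualOp hj F ξ‖ * ‖bidualOp hj F ξ‖ ≤ ‖bidualOp hj F ξ‖ * (‖F‖ * ‖ξ‖) := by
    calc ‖bidualOp hj F ξ‖ * ‖bidualOp hj F ξ‖
        = ‖inner 𝕜 (bidualOp hj F ξ) (bidualOp hj F ξ)‖ := by
          rw [inner_self_eq_norm_sq_to_K]; simp [sq]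
      _ = ‖F (coeffFun j (bidualOp hj F ξ) ξ)‖ := by rw [inner_bidualOp]
      _ ≤ ‖F‖ * ‖coeffFun j (bidualOp hj F ξ) ξ‖ := F.le_opNorm _
      _ ≤ ‖F‖ * (‖bidualOp hj F ξ‖ * ‖ξ‖) := by gcongr; exact norm_coeffFun_le hj _ _
      _ = ‖bidualOp hj F ξ‖ * (‖F‖ * ‖ξ‖) := by ring
  exact le_of_mul_le_mul_left h1 hpos

theorem bidualOp_arensFirst (hmul : ∀ a b, j (a * b) = j a * j b)
    (F G : StrongDual 𝕜 (StrongDual 𝕜 A)) :
    bidualOp hj (arensFirst 𝕜 A F G) = bidualOp hj F * bidualOp hj G := by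
  refine bidualOp_eq hj fun η ξ => ?_
  rw [arensFirst_apply]
  have : bidualDotFun 𝕜 A G (coeffFun j η ξ) = coeffFun j η (bidualOp hj G ξ) := by
    ext a
    rw [bidualDotFun_apply]
    have h : funDotElt 𝕜 A (coeffFun j η ξ) a =
        coeffFun j (ContinuousLinearMap.adjoint (j a) η) ξ := by
      ext b
      simp [funDotElt, coeffFun_apply, ContinuousLinearMap.adjoint_inner_left, hmul]
    rw [h, ← inner_bidualOp hj, coeffFun_apply, ContinuousLinearMap.adjoint_inner_left]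
  rw [this, ← inner_bidualOp hj]
  rfl

theorem bidualOp_arensSecond (hmul : ∀ a b, j (a * b) = j a * j b)
    (F G : StrongDual 𝕜 (StrongDual 𝕜 A)) :
    bidualOp hj (arensSecond 𝕜 A F G) = bidualOp hj F * bidualOp hj G := by
  refine bidualOp_eq hj fun η ξ => ?_
  rw [arensSecond_apply]
  have : funDotBidual 𝕜 A (coeffFun j η ξ) F =
      coeffFun j (ContinuousLinearMap.adjoint (bidualOp hj F) η) ξ := by
    ext a
    rw [funDotBidual_apply]
    have h : eltDotFun 𝕜 A a (coeffFun j η ξ) = coeffFun j η (j a ξ) := by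
      ext b
      simp [eltDotFun, coeffFun_apply, hmul]
    rw [h, ← inner_bidualOp hj, coeffFun_apply, ContinuousLinearMap.adjoint_inner_left]
  rw [this, ← inner_bidualOp hj, ContinuousLinearMap.adjoint_inner_left]
  rfl

theorem bidualOp_inclusion (a : A) :
    bidualOp hj (NormedSpace.inclusionInDoubleDual 𝕜 A a) = j a :=
  bidualOp_eq hj fun η ξ => by
    rw [NormedSpace.dual_def, coeffFun_apply]

/-- Strong limits of bounded sequences from `A` are of the form `bidualOp A F`. -/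
theorem exists_bidualOp_eq {a : ℕ → A} {C : ℝ} (hC : ∀ n, ‖a n‖ ≤ C) {X : H →L[𝕜] H}
    (hX : ∀ ξ, Tendsto (fun n => j (a n) ξ) atTop (𝓝 (X ξ))) :
    ∃ F : StrongDual 𝕜 (StrongDual 𝕜 A), bidualOp hj F = X := by
  have hK : IsCompact ((WeakDual.toStrongDual : WeakDual 𝕜 (StrongDual 𝕜 A) → _) ⁻¹'
      Metric.closedBall (0 : StrongDual 𝕜 (StrongDual 𝕜 A)) C) :=
    WeakDual.isCompact_closedBall 0 C
  let U : Ultrafilter ℕ := Filter.hyperfilter ℕ
  let g : ℕ → WeakDual 𝕜 (StrongDual 𝕜 A) := fun n =>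
    StrongDual.toWeakDual (NormedSpace.inclusionInDoubleDual 𝕜 A (a n))
  have hg : ∀ n, g n ∈ ((WeakDual.toStrongDual : WeakDual 𝕜 (StrongDual 𝕜 A) → _) ⁻¹'
      Metric.closedBall (0 : StrongDual 𝕜 (StrongDual 𝕜 A)) C) := by
    intro n
    exact (mem_closedBall_zero_iff (a := NormedSpace.inclusionInDoubleDual 𝕜 A (a n))).mpr
      ((NormedSpace.double_dual_bound 𝕜 A (a n)).trans (hC n))
  obtain ⟨F, hF1, hF2⟩ := hK.ultrafilter_le_nhds (U.map g) (by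
    rw [Filter.le_principal_iff, Ultrafilter.mem_coe, Ultrafilter.mem_map]
    exact Filter.mem_of_superset Filter.univ_mem fun n _ => hg n)
  refine ⟨WeakDual.toStrongDual F, bidualOp_eq hj fun η ξ => ?_⟩
  have h1 : Tendsto (fun n => g n (coeffFun j η ξ)) U (𝓝 (F (coeffFun j η ξ))) := by
    have hev : Continuous fun x : WeakDual 𝕜 (StrongDual 𝕜 A) => x (coeffFun j η ξ) :=
      WeakDual.eval_continuous _
    exact (hev.tendsto F).comp hF2
  have h2 : Tendsto (fun n => g n (coeffFun j η ξ)) U (𝓝 (inner 𝕜 η (X ξ))) := by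
    have h3 : Tendsto (fun n => inner 𝕜 η (j (a n) ξ)) atTop (𝓝 (inner 𝕜 η (X ξ))) :=
      tendsto_const_nhds.inner (hX ξ)
    have h4 : (U : Filter ℕ) ≤ atTop := by
      rw [← Nat.cofinite_eq_atTop]; exact Filter.hyperfilter_le_cofinite
    exact h3.mono_left h4
  exact tendsto_nhds_unique h1 h2

end Rep

/-- The Hilbert space `ℓ²(ℕ)`. -/
abbrev L2 (𝕜 : Type) [RCLike 𝕜] : Type := lp (fun _ : ℕ => 𝕜) 2

theorem exists_shift (𝕜 : Type) [RCLike 𝕜] :
    ∃ S T : L2 𝕜 →L[𝕜] L2 𝕜, T * S = 1 ∧ S * T ≠ 1 ∧ ‖S‖ ≤ 1 ∧ ‖T‖ ≤ 1 ∧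
      ∀ ξ : L2 𝕜, Tendsto (fun n => (T ^ n) ξ) atTop (𝓝 0) := by
  classical
  let b : HilbertBasis ℕ 𝕜 (L2 𝕜) := HilbertBasis.ofRepr (LinearIsometryEquiv.refl 𝕜 _)
  have hb : ∀ i, b i = lp.single 2 i (1 : 𝕜) := fun i => by
    have := b.repr_self i
    simpa [b] using this
  have hon : Orthonormal 𝕜 (fun i : ℕ => b (i + 1)) :=
    b.orthonormal.comp _ (add_left_injective 1)
  let S₀ : L2 𝕜 →ₗᵢ[𝕜] L2 𝕜 := hon.orthogonalFamily.linearIsometry
  have hS₀ : ∀ i, S₀ (b i) = b (i + 1) := fun i => by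
    rw [hb i]
    have := hon.orthogonalFamily.linearIsometry_apply_single (i := i) (1 : 𝕜)
    rw [LinearIsometry.toSpanSingleton_apply, one_smul] at this
    exact this
  let S : L2 𝕜 →L[𝕜] L2 𝕜 := S₀.toContinuousLinearMap
  let T : L2 𝕜 →L[𝕜] L2 𝕜 := ContinuousLinearMap.adjoint S
  have hTS : T * S = 1 := (ContinuousLinearMap.norm_map_iff_adjoint_comp_self S).mp S₀.norm_map
  have hSn : ‖S‖ ≤ 1 := S₀.norm_toContinuousLinearMap_le
  have hTn : ‖T‖ ≤ 1 := by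
    have : ‖T‖ = ‖S‖ := LinearIsometryEquiv.norm_map _ _
    rw [this]; exact hSn
  -- T (b 0) = 0
  have hT0 : T (b 0) = 0 := by
    refine ext_inner_right 𝕜 fun η => ?_
    rw [inner_zero_left]
    have h1 : inner 𝕜 (T (b 0)) η = inner 𝕜 (b 0) (S₀ η) :=
      ContinuousLinearMap.adjoint_inner_left S η (b 0)
    rw [h1]
    have h2 := hon.orthogonalFamily.hasSum_linearIsometry η
    have h3 := h2.mapL (innerSL 𝕜 (b 0))
    have h4 : ∀ i : ℕ, innerSL 𝕜 (b 0) (LinearIsometry.toSpanSingleton 𝕜 (L2 𝕜) (hon.1 i) (η i)) = 0 := by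
      intro i
      rw [innerSL_apply_apply, LinearIsometry.toSpanSingleton_apply, inner_smul_right,
        b.orthonormal.2 (by omega), mul_zero]
    simp only [h4] at h3
    exact (h3.unique hasSum_zero)
  have hTsucc : ∀ i, T (b (i + 1)) = b i := fun i => by
    have : T (S (b i)) = b i := by
      have := congrArg (fun f : L2 𝕜 →L[𝕜] L2 𝕜 => f (b i)) hTS
      simpa using this
    rw [← hS₀ i]; exact this
  have hTpow : ∀ n i, i < n → (T ^ n) (b i) = 0 := by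
    intro n
    induction n with
    | zero => intro i hi; omega
    | succ n ih =>
      intro i hi
      rw [pow_succ]
      show (T ^ n) (T (b i)) = 0
      rcases i with _ | i
      · rw [hT0, map_zero]
      · rw [hTsucc, ih i (by omega)]
  have hTpn : ∀ n : ℕ, ‖T ^ n‖ ≤ 1 := fun n => by
    induction n with
    | zero => rw [pow_zero]; exact ContinuousLinearMap.norm_id_le
    | succ n ih =>
      rw [pow_succ]
      calc ‖T ^ n * T‖ ≤ ‖T ^ n‖ * ‖T‖ := norm_mul_le _ _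
        _ ≤ 1 * 1 := by gcongr
        _ = 1 := one_mul 1
  refine ⟨S, T, hTS, ?_, hSn, hTn, ?_⟩
  · intro h
    have h1 : (S * T) (b 0) = b 0 := by rw [h]; rfl
    have h2 : (S * T) (b 0) = 0 := by
      show S (T (b 0)) = 0
      rw [hT0, map_zero]
    have h3 : ‖b 0‖ = 1 := b.orthonormal.1 0
    rw [← h1, h2] at h3
    simp at h3
  · intro ξ
    rw [Metric.tendsto_atTop]
    intro ε hε
    have h1 := (b.hasSum_repr ξ).tendsto_sum_nat
    rw [Metric.tendsto_atTop] at h1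
    obtain ⟨N, hN⟩ := h1 ε hε
    refine ⟨N, fun n hn => ?_⟩
    have h2 := hN N le_rfl
    have h3 : (T ^ n) (∑ i ∈ Finset.range N, b.repr ξ i • b i) = 0 := by
      rw [map_sum]
      refine Finset.sum_eq_zero fun i hi => ?_
      rw [map_smul, hTpow n i (lt_of_lt_of_le (Finset.mem_range.mp hi) hn), smul_zero]
    have h4 : (T ^ n) ξ = (T ^ n) (ξ - ∑ i ∈ Finset.range N, b.repr ξ i • b i) := by
      rw [map_sub, h3, sub_zero]
    rw [dist_zero_right, h4]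
    calc ‖(T ^ n) (ξ - ∑ i ∈ Finset.range N, b.repr ξ i • b i)‖
        ≤ ‖T ^ n‖ * ‖ξ - ∑ i ∈ Finset.range N, b.repr ξ i • b i‖ := ContinuousLinearMap.le_opNorm _ _
      _ ≤ 1 * ‖ξ - ∑ i ∈ Finset.range N, b.repr ξ i • b i‖ := by gcongr; exact hTpn n
      _ < ε := by rw [one_mul, norm_sub_rev, ← dist_eq_norm]; exact h2


section Openness

/-- A binary operation `m` on a metric space is open at every point, i.e. for all `x, y` and
`ε > 0` there is `δ > 0` with `B(m x y, δ) ⊆ m(B(x, ε), B(y, ε))`. -/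
def MulOpen {X : Type} [PseudoMetricSpace X] (m : X → X → X) : Prop :=
  ∀ x y : X, ∀ ε > 0, ∃ δ > 0, ball (m x y) δ ⊆ Set.image2 m (ball x ε) (ball y ε)

/-- A binary operation `m` on a metric space is uniformly open, i.e. the `δ` above depends on `ε`
only. -/
def MulUniformlyOpen {X : Type} [PseudoMetricSpace X] (m : X → X → X) : Prop :=
  ∀ ε > 0, ∃ δ > 0, ∀ x y : X, ball (m x y) δ ⊆ Set.image2 m (ball x ε) (ball y ε)

/-- A binary operation `m` is weakly open, i.e. the image of every nonempty open subset of `X × X`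
has nonempty interior. -/
def MulWeaklyOpen {X : Type} [PseudoMetricSpace X] (m : X → X → X) : Prop :=
  ∀ U : Set (X × X), IsOpen U → U.Nonempty → (interior ((fun p : X × X => m p.1 p.2) '' U)).Nonempty

theorem MulUniformlyOpen.mulOpen {X : Type} [PseudoMetricSpace X] {m : X → X → X}
    (h : MulUniformlyOpen m) : MulOpen m := fun x y ε hε => by
  obtain ⟨δ, hδ, h'⟩ := h ε hε
  exact ⟨δ, hδ, h' x y⟩

theorem MulOpen.mulWeaklyOpen {X : Type} [PseudoMetricSpace X] {m : X → X → X}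
    (h : MulOpen m) : MulWeaklyOpen m := by
  rintro U hU ⟨⟨x, y⟩, hxy⟩
  obtain ⟨ε, hε, hball⟩ := Metric.isOpen_iff.mp hU (x, y) hxy
  obtain ⟨δ, hδ, hsub⟩ := h x y ε hε
  refine ⟨m x y, mem_interior.mpr ⟨ball (m x y) δ, ?_, isOpen_ball, mem_ball_self hδ⟩⟩
  intro z hz
  obtain ⟨a, ha, b, hb, rfl⟩ := hsub hz
  exact ⟨(a, b), hball (by rw [← ball_prod_same]; exact ⟨ha, hb⟩), rfl⟩

end Openness

section General

variable {B : Type*} [NormedRing B]

theorem norm_pow_le_one' {X : B} (h1 : ‖(1 : B)‖ = 1) (hX : ‖X‖ ≤ 1) (n : ℕ) : ‖X ^ n‖ ≤ 1 := by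
  induction n with
  | zero => rw [pow_zero]; exact h1.le
  | succ n ih =>
    rw [pow_succ]
    calc ‖X ^ n * X‖ ≤ ‖X ^ n‖ * ‖X‖ := norm_mul_le _ _
      _ ≤ 1 * 1 := by gcongr
      _ = 1 := one_mul 1

theorem norm_proj_le {S T : B} (h1 : ‖(1 : B)‖ = 1) (hS : ‖S‖ ≤ 1) (hT : ‖T‖ ≤ 1) (n : ℕ) :
    ‖1 - S ^ n * T ^ n‖ ≤ 2 := by
  calc ‖1 - S ^ n * T ^ n‖ ≤ ‖(1 : B)‖ + ‖S ^ n * T ^ n‖ := norm_sub_le _ _
    _ ≤ 1 + ‖S ^ n‖ * ‖T ^ n‖ := by rw [h1]; gcongr; exact norm_mul_le _ _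
    _ ≤ 1 + 1 * 1 := by
      have := norm_pow_le_one' h1 hS n
      have := norm_pow_le_one' h1 hT n
      gcongr
    _ = 2 := by norm_num

theorem norm_S_proj_le {S T : B} (h1 : ‖(1 : B)‖ = 1) (hS : ‖S‖ ≤ 1) (hT : ‖T‖ ≤ 1) (n : ℕ) :
    ‖S * (1 - S ^ n * T ^ n)‖ ≤ 2 := by
  calc ‖S * (1 - S ^ n * T ^ n)‖ ≤ ‖S‖ * ‖1 - S ^ n * T ^ n‖ := norm_mul_le _ _
    _ ≤ 1 * 2 := by gcongr; exact norm_proj_le h1 hS hT n
    _ = 2 := one_mul _

theorem norm_proj_T_le {S T : B} (h1 : ‖(1 : B)‖ = 1) (hS : ‖S‖ ≤ 1) (hT : ‖T‖ ≤ 1) (n : ℕ) :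
    ‖(1 - S ^ n * T ^ n) * T‖ ≤ 2 := by
  calc ‖(1 - S ^ n * T ^ n) * T‖ ≤ ‖1 - S ^ n * T ^ n‖ * ‖T‖ := norm_mul_le _ _
    _ ≤ 2 * 1 := by gcongr; exact norm_proj_le h1 hS hT n
    _ = 2 := mul_one _

variable {𝕜 : Type*} [RCLike 𝕜] [NormedAlgebra 𝕜 B]

theorem S_proj_mem {S T : B} (hTS : T * S = 1) (n : ℕ) :
    S * (1 - S ^ n * T ^ n) ∈ cornerAlg 𝕜 S T := by
  refine ⟨n + 1, ?_, ?_⟩
  · rw [pow_succ, ← mul_assoc, mul_assoc S, sub_mul, one_mul, mul_assoc (S ^ n),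
      pow_mul_pow_one hTS, mul_one, sub_self, mul_zero, zero_mul]
  · rw [pow_succ, mul_assoc, ← mul_assoc T, hTS, one_mul, mul_sub, mul_one, ← mul_assoc,
      pow_mul_pow_one hTS, one_mul, sub_self]

theorem proj_T_mem {S T : B} (hTS : T * S = 1) (n : ℕ) :
    (1 - S ^ n * T ^ n) * T ∈ cornerAlg 𝕜 S T := by
  refine ⟨n + 1, ?_, ?_⟩
  · rw [pow_succ', mul_assoc, ← mul_assoc T, hTS, one_mul, sub_mul, one_mul, mul_assoc,
      pow_mul_pow_one hTS, mul_one, sub_self]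
  · rw [pow_succ', mul_assoc, ← mul_assoc (T ^ n), mul_sub, mul_one, ← mul_assoc (T ^ n),
      pow_mul_pow_one hTS, one_mul, sub_self, zero_mul, mul_zero]

theorem proj_one_mem {S T : B} (hTS : T * S = 1) : 1 - S * T ∈ cornerAlg 𝕜 S T := by
  refine ⟨1, ?_, ?_⟩
  · rw [pow_one, sub_mul, one_mul, mul_assoc, hTS, mul_one, sub_self]
  · rw [pow_one, mul_sub, mul_one, ← mul_assoc, hTS, one_mul, sub_self]

end General

theorem proj_tendsto {𝕜 : Type} [RCLike 𝕜] {H : Type} [NormedAddCommGroup H]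
    [InnerProductSpace 𝕜 H] {S T : H →L[𝕜] H} (h1 : ‖(1 : H →L[𝕜] H)‖ = 1) (hS : ‖S‖ ≤ 1)
    (hlim : ∀ ξ : H, Tendsto (fun n => (T ^ n) ξ) atTop (𝓝 0)) (ξ : H) :
    Tendsto (fun n => (1 - S ^ n * T ^ n : H →L[𝕜] H) ξ) atTop (𝓝 ξ) := by
  have hproj : ∀ n : ℕ, ‖(S ^ n * T ^ n) ξ‖ ≤ ‖(T ^ n) ξ‖ := fun n => by
    calc ‖(S ^ n * T ^ n) ξ‖ = ‖(S ^ n) ((T ^ n) ξ)‖ := rfl
      _ ≤ ‖S ^ n‖ * ‖(T ^ n) ξ‖ := ContinuousLinearMap.le_opNorm _ _
      _ ≤ 1 * ‖(T ^ n) ξ‖ := by gcongr; exact norm_pow_le_one' h1 hS n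
      _ = ‖(T ^ n) ξ‖ := one_mul _
  have h2 : Tendsto (fun n => (S ^ n * T ^ n) ξ) atTop (𝓝 0) :=
    squeeze_zero_norm hproj (by simpa using (hlim ξ).norm)
  have h3 := h2.const_sub ξ
  rw [sub_zero] at h3
  exact h3

section Final

variable {𝕜 : Type} [RCLike 𝕜]

/-- A subalgebra of a normed algebra, as a normed space. -/
@[reducible]
noncomputable def subNormedSpace {B : Type*} [NormedRing B] [NormedAlgebra 𝕜 B]
    (W : NonUnitalSubalgebra 𝕜 B) : NormedSpace 𝕜 W :=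
  { (inferInstance : Module 𝕜 W) with
    norm_smul_le := fun c a => norm_smul_le c (a : B) }

attribute [local instance] subNormedSpace

theorem uniformlyOpen_corner {B : Type} [NormedRing B] [NormedAlgebra 𝕜 B] [CompleteSpace B]
    {S T : B} (hTS : T * S = 1) (hS : ‖S‖ ≤ 1) (hT : ‖T‖ ≤ 1) (h1 : ‖(1 : B)‖ = 1) :
    MulUniformlyOpen (fun x y : (cornerAlg 𝕜 S T).topologicalClosure => x * y) := by
  intro ε hε
  refine ⟨ε ^ 2 / 256, by positivity, fun x y z hz => ?_⟩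
  have hz' : ‖(z : B) - (x : B) * (y : B)‖ < ε ^ 2 / 256 := by
    rw [mem_ball, dist_eq_norm] at hz
    exact hz
  obtain ⟨x', hx', y', hy', hxx, hyy, hxy⟩ :=
    exists_factor (𝕜 := 𝕜) hTS hS hT h1 x.2 y.2 z.2 hε hz'
  refine ⟨⟨x', hx'⟩, ?_, ⟨y', hy'⟩, ?_, ?_⟩
  · rw [mem_ball, dist_eq_norm]; exact hxx
  · rw [mem_ball, dist_eq_norm]; exact hyy
  · exact Subtype.ext hxy

theorem exists_perturb {E : Type*} [NormedAddCommGroup E] [NormedSpace 𝕜 E] (W D : E) {r : ℝ}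
    (hr : 0 < r) : ∃ c : ℝ, 0 < c ∧ W + (c : 𝕜) • D ∈ ball W r := by
  have h2 : 0 < ‖D‖ + 1 := by positivity
  refine ⟨r / 2 / (‖D‖ + 1), by positivity, ?_⟩
  rw [mem_ball_iff_norm, add_sub_cancel_left, norm_smul, RCLike.norm_ofReal,
    abs_of_pos (by positivity : 0 < r / 2 / (‖D‖ + 1))]
  calc r / 2 / (‖D‖ + 1) * ‖D‖ ≤ r / 2 / (‖D‖ + 1) * (‖D‖ + 1) := by gcongr; linarith
    _ = r / 2 := by field_simp
    _ < r := by linarith

theorem norm_sub_lt_of_mem_ball {E : Type*} [SeminormedAddCommGroup E] {x y : E} {r : ℝ}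
    (h : x ∈ ball y r) : ‖x - y‖ < r := mem_ball_iff_norm.mp h

/-- If the bidual of `A` maps homomorphically to `B(H)` and the image contains `S`, `T`,
`1 - S T` where `T S = 1` and `S T ≠ 1`, then the product on the bidual is not weakly open. -/
theorem not_weaklyOpen {H : Type} [NormedAddCommGroup H] [InnerProductSpace 𝕜 H] [CompleteSpace H]
    {A : Type} [NonUnitalNormedRing A] [NormedSpace 𝕜 A]
    [IsScalarTower 𝕜 A A] [SMulCommClass 𝕜 A A]
    {j : A →L[𝕜] H →L[𝕜] H} (hj : ∀ a, ‖j a‖ ≤ ‖a‖)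
    {S T : H →L[𝕜] H} (hTS : T * S = 1) (hST : S * T ≠ 1) (hS : ‖S‖ ≤ 1) (hT : ‖T‖ ≤ 1)
    {m : StrongDual 𝕜 (StrongDual 𝕜 A) → StrongDual 𝕜 (StrongDual 𝕜 A) →
      StrongDual 𝕜 (StrongDual 𝕜 A)}
    (hm : ∀ F G, bidualOp hj (m F G) = bidualOp hj F * bidualOp hj G)
    {FS FT FD : StrongDual 𝕜 (StrongDual 𝕜 A)} (hFS : bidualOp hj FS = S)
    (hFT : bidualOp hj FT = T) (hFD : bidualOp hj FD = 1 - S * T) :
    ¬ MulWeaklyOpen m := by
  intro hw
  obtain ⟨W, hW⟩ := hw (ball FS 1 ×ˢ ball FT 1) (isOpen_ball.prod isOpen_ball)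
    ⟨(FS, FT), mem_ball_self one_pos, mem_ball_self one_pos⟩
  rw [mem_interior_iff_mem_nhds, Metric.mem_nhds_iff] at hW
  obtain ⟨r, hr, hball⟩ := hW
  obtain ⟨⟨F, G⟩, ⟨hF, hG⟩, hFG⟩ := hball (mem_ball_self hr)
  simp only at hF hG hFG
  obtain ⟨c, hcpos, hmem⟩ := exists_perturb (𝕜 := 𝕜)
    (E := StrongDual 𝕜 (StrongDual 𝕜 A)) W FD hr
  obtain ⟨⟨F', G'⟩, ⟨hF', hG'⟩, hFG'⟩ := hball hmem
  simp only at hF' hG' hFG'
  have close : ∀ {K L : StrongDual 𝕜 (StrongDual 𝕜 A)}, K ∈ ball L 1 →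
      ‖bidualOp hj K - bidualOp hj L‖ < 1 := by
    intro K L hK
    rw [← bidualOp_sub]
    exact (norm_bidualOp_le hj _).trans_lt
      (norm_sub_lt_of_mem_ball (E := StrongDual 𝕜 (StrongDual 𝕜 A)) hK)
  have hF1 := close hF
  have hG1 := close hG
  have hF1' := close hF'
  rw [hFS] at hF1 hF1'
  rw [hFT] at hG1
  obtain ⟨R, hR⟩ := right_inv (𝕜 := 𝕜) hTS hT hS hF1 hG1
    (show (c : 𝕜) ≠ 0 by exact_mod_cast hcpos.ne')
  have key : bidualOp hj F' * bidualOp hj G' =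
      bidualOp hj F * bidualOp hj G + (c : 𝕜) • (1 - S * T) := by
    rw [← hm, hFG', bidualOp_add_smul, hFD, ← hFG, hm]
  rw [← key] at hR
  exact not_right_inv hTS hST hT hF1' hR

/-- The abstract form: a Banach algebra `A` with uniformly open multiplication, embedded
isometrically in `B(H)` and containing `S P n`, `P n T` and `1 - S T`. -/
theorem bidual_of_embedding {H : Type} [NormedAddCommGroup H] [InnerProductSpace 𝕜 H]
    [CompleteSpace H]
    {A : Type} [NonUnitalNormedRing A] [NormedSpace 𝕜 A]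
    [IsScalarTower 𝕜 A A] [SMulCommClass 𝕜 A A]
    (j : A →L[𝕜] H →L[𝕜] H) (hj : ∀ a, ‖j a‖ = ‖a‖) (hmul : ∀ a b, j (a * b) = j a * j b)
    {S T : H →L[𝕜] H} (hTS : T * S = 1) (hST : S * T ≠ 1) (hS : ‖S‖ ≤ 1) (hT : ‖T‖ ≤ 1)
    (hlim : ∀ ξ : H, Tendsto (fun n => (T ^ n) ξ) atTop (𝓝 0))
    (h1 : ‖(1 : H →L[𝕜] H)‖ = 1)
    (aS aT : ℕ → A) (aD : A)
    (haS : ∀ n, j (aS n) = S * (1 - S ^ n * T ^ n))
    (haT : ∀ n, j (aT n) = (1 - S ^ n * T ^ n) * T)
    (haD : j aD = 1 - S * T)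
    (hunif : MulUniformlyOpen (fun x y : A => x * y)) :
      MulUniformlyOpen (fun x y : A => x * y) ∧
      MulOpen (fun x y : A => x * y) ∧
      MulWeaklyOpen (fun x y : A => x * y) ∧
      ¬ MulUniformlyOpen (arensFirst 𝕜 A) ∧
      ¬ MulOpen (arensFirst 𝕜 A) ∧
      ¬ MulWeaklyOpen (arensFirst 𝕜 A) ∧
      ¬ MulUniformlyOpen (arensSecond 𝕜 A) ∧
      ¬ MulOpen (arensSecond 𝕜 A) ∧
      ¬ MulWeaklyOpen (arensSecond 𝕜 A) := by
  have hj' : ∀ a, ‖j a‖ ≤ ‖a‖ := fun a => (hj a).le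
  obtain ⟨FS, hFS⟩ := exists_bidualOp_eq hj' (a := aS) (C := 2)
    (fun n => by rw [← hj, haS]; exact norm_S_proj_le h1 hS hT n) (X := S)
    (fun ξ => by
      have := (S.continuous.tendsto ξ).comp (proj_tendsto h1 hS hlim ξ)
      refine this.congr (fun n => ?_)
      rw [haS]
      rfl)
  obtain ⟨FT, hFT⟩ := exists_bidualOp_eq hj' (a := aT) (C := 2)
    (fun n => by rw [← hj, haT]; exact norm_proj_T_le h1 hS hT n) (X := T)
    (fun ξ => by
      refine (proj_tendsto h1 hS hlim (T ξ)).congr (fun n => ?_)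
      rw [haT]
      rfl)
  have hFD : bidualOp hj' (NormedSpace.inclusionInDoubleDual 𝕜 A aD) = 1 - S * T := by
    rw [bidualOp_inclusion hj' aD, haD]
  have hw1 : ¬ MulWeaklyOpen (arensFirst 𝕜 A) :=
    not_weaklyOpen hj' hTS hST hS hT (bidualOp_arensFirst hj' hmul) hFS hFT hFD
  have hw2 : ¬ MulWeaklyOpen (arensSecond 𝕜 A) :=
    not_weaklyOpen hj' hTS hST hS hT (bidualOp_arensSecond hj' hmul) hFS hFT hFD
  exact ⟨hunif, hunif.mulOpen, hunif.mulOpen.mulWeaklyOpen,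
    fun h => hw1 h.mulOpen.mulWeaklyOpen, fun h => hw1 h.mulWeaklyOpen, hw1,
    fun h => hw2 h.mulOpen.mulWeaklyOpen, fun h => hw2 h.mulWeaklyOpen, hw2⟩

/-- The algebra for abstract `S` and `T`. -/
theorem exists_algebra {H : Type} [NormedAddCommGroup H] [InnerProductSpace 𝕜 H]
    [CompleteSpace H] {S T : H →L[𝕜] H} (hTS : T * S = 1) (hST : S * T ≠ 1) (hS : ‖S‖ ≤ 1)
    (hT : ‖T‖ ≤ 1) (hlim : ∀ ξ : H, Tendsto (fun n => (T ^ n) ξ) atTop (𝓝 0))
    (h1 : ‖(1 : H →L[𝕜] H)‖ = 1) :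
    ∃ (A : Type) (_ : NonUnitalNormedRing A) (_ : NormedSpace 𝕜 A)
      (_ : IsScalarTower 𝕜 A A) (_ : SMulCommClass 𝕜 A A) (_ : CompleteSpace A),
      MulUniformlyOpen (fun x y : A => x * y) ∧
      MulOpen (fun x y : A => x * y) ∧
      MulWeaklyOpen (fun x y : A => x * y) ∧
      ¬ MulUniformlyOpen (arensFirst 𝕜 A) ∧
      ¬ MulOpen (arensFirst 𝕜 A) ∧
      ¬ MulWeaklyOpen (arensFirst 𝕜 A) ∧
      ¬ MulUniformlyOpen (arensSecond 𝕜 A) ∧
      ¬ MulOpen (arensSecond 𝕜 A) ∧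
      ¬ MulWeaklyOpen (arensSecond 𝕜 A) := by
  have hle := (cornerAlg 𝕜 S T).le_topologicalClosure
  have hcomp : CompleteSpace (cornerAlg 𝕜 S T).topologicalClosure :=
    (NonUnitalSubalgebra.isClosed_topologicalClosure _).completeSpace_coe
  let j : (cornerAlg 𝕜 S T).topologicalClosure →L[𝕜] (H →L[𝕜] H) :=
    LinearMap.mkContinuous
      { toFun := fun a => (a : H →L[𝕜] H)
        map_add' := fun a b => rfl
        map_smul' := fun c a => rfl } 1 (fun a => by rw [one_mul]; exact le_rfl)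
  exact ⟨(cornerAlg 𝕜 S T).topologicalClosure, inferInstance, inferInstance, inferInstance,
    inferInstance, hcomp,
    bidual_of_embedding j (fun a => rfl) (fun a b => rfl) hTS hST hS hT hlim h1
      (fun n => ⟨_, hle (S_proj_mem (𝕜 := 𝕜) hTS n)⟩)
      (fun n => ⟨_, hle (proj_T_mem (𝕜 := 𝕜) hTS n)⟩)
      ⟨_, hle (proj_one_mem (𝕜 := 𝕜) hTS)⟩
      (fun n => rfl) (fun n => rfl) rfl (uniformlyOpen_corner hTS hS hT h1)⟩

/-- **Main theorem.** For `𝕜 = ℝ` and for `𝕜 = ℂ` there is a Banach algebra `A` over `𝕜` whose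
multiplication is uniformly open (hence open and weakly open), while the multiplication of the
bidual is neither weakly open, nor open, nor uniformly open, for both Arens products. -/
theorem result (𝕜 : Type) [RCLike 𝕜] :
    ∃ (A : Type) (_ : NonUnitalNormedRing A) (_ : NormedSpace 𝕜 A)
      (_ : IsScalarTower 𝕜 A A) (_ : SMulCommClass 𝕜 A A) (_ : CompleteSpace A),
      MulUniformlyOpen (fun x y : A => x * y) ∧
      MulOpen (fun x y : A => x * y) ∧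
      MulWeaklyOpen (fun x y : A => x * y) ∧
      ¬ MulUniformlyOpen (arensFirst 𝕜 A) ∧
      ¬ MulOpen (arensFirst 𝕜 A) ∧
      ¬ MulWeaklyOpen (arensFirst 𝕜 A) ∧
      ¬ MulUniformlyOpen (arensSecond 𝕜 A) ∧
      ¬ MulOpen (arensSecond 𝕜 A) ∧
      ¬ MulWeaklyOpen (arensSecond 𝕜 A) := by
  obtain ⟨S, T, hTS, hST, hS, hT, hlim⟩ := exists_shift 𝕜
  have h1 : ‖(1 : L2 𝕜 →L[𝕜] L2 𝕜)‖ = 1 := by
    have hnt : Nontrivial (L2 𝕜) := by
      by_contra hcon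
      rw [not_nontrivial_iff_subsingleton] at hcon
      apply hST
      ext1 ξ
      exact Subsingleton.elim _ _
    exact norm_one
  exact exists_algebra hTS hST hS hT hlim h1

end Final

end Pool.Agent.Results.MP_5068ad_an.BidualNotOpen
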